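import Pool.Agent.Helper75.CR.St2

/-! Module P1 of project CR. -/

set_option autoImplicit false

namespace Pool.Agent.Helper38.CR

open Pool.Agent.Helper75.CR Helper1.IM

theorem hP1 : StP1 := by
  intro θ h
  obtain ⟨b, h1, h2⟩ := h (FA θ) (FA_mem θ) (clFA θ [X 0] (by simp))
  obtain ⟨w, hw, rfl⟩ := clFA_surj θ b
  rw [clFA_mul, clFA_mul, clFA_eq] at h1
  rw [clFA_mul, clFA_mul, clFA_eq] at h2
  refine ⟨⟨w, ?_⟩, w, ?_⟩
  · have h3 : θ.r ([X 0] ++ ([X 0] ++ w) ++ []) ([X 0] ++ (w ++ [X 0]) ++ []) := θ.mul' [X 0] [] h2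
    refine θ.symm' (θ.trans' ?_ h1)
    simpa using h3
  · have h3 : θ.r ([] ++ ([X 0] ++ w) ++ [X 0]) ([] ++ (w ++ [X 0]) ++ [X 0]) := θ.mul' [] [X 0] h2
    refine θ.trans' (θ.symm' h1) ?_
    simpa using h3

end Pool.Agent.Helper38.CR
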